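import Pool.Agent.H7.KQ.Stmts

/-!
# Row PRE of the board `kq` (helper45)
-/

set_option autoImplicit false

open Finset

namespace Pool.KQ

open Pool.Agent.H23.KT Pool.Agent.H46.KW

lemma pre_binom (a : ℝ) (ha : 1 ≤ a) (n : ℕ) :
    (a + 1) ^ (n + 1) ≤ a ^ (n + 1) + 3 ^ (n + 1) * a ^ n := by
  have ha0 : 0 ≤ a := by linarith
  induction n with
  | zero => norm_num
  | succ n ih =>
    have h1 : (a + 1) ^ (n + 1 + 1) ≤ (a + 1) * (a ^ (n + 1) + 3 ^ (n + 1) * a ^ n) := by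
      rw [pow_succ' (a + 1)]
      exact mul_le_mul_of_nonneg_left ih (by linarith)
    refine h1.trans ?_
    have h2 : a ^ n ≤ a ^ (n + 1) := pow_le_pow_right₀ ha (by omega)
    have h3 : (1 : ℝ) ≤ 3 ^ (n + 1) := one_le_pow₀ (by norm_num)
    have h4 : 0 ≤ a ^ (n + 1) := by positivity
    have e1 : (a + 1) * (a ^ (n + 1) + 3 ^ (n + 1) * a ^ n) =
        a ^ (n + 1 + 1) + a ^ (n + 1) + 3 ^ (n + 1) * a ^ (n + 1) + 3 ^ (n + 1) * a ^ n := by ring
    have e2 : (3 : ℝ) ^ (n + 1 + 1) * a ^ (n + 1) = 3 * (3 ^ (n + 1) * a ^ (n + 1)) := by ring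
    rw [e1, e2]
    have h5 : (3 : ℝ) ^ (n + 1) * a ^ n ≤ 3 ^ (n + 1) * a ^ (n + 1) :=
      mul_le_mul_of_nonneg_left h2 (by positivity)
    have h6 : 1 * a ^ (n + 1) ≤ 3 ^ (n + 1) * a ^ (n + 1) := mul_le_mul_of_nonneg_right h3 h4
    linarith

lemma pre_am (hA : AMGStmt) (p : ℕ) (x : Fin (p + 3) → ℝ) (S : ℝ) (hx : ∀ i, 0 ≤ x i)
    (hS : ∑ i, x i ≤ S) (hS0 : 0 < S) : ∏ i, x i ≤ (S / ((p : ℝ) + 3)) ^ (p + 3) := by
  have h := hA (p + 3) x S hx hS ⟨0, by omega⟩ ⟨1, by omega⟩ (by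
    intro h
    have := congrArg Fin.val h
    simp at this)
  push_cast at h
  have h2 : 0 ≤ (S / ((p : ℝ) + 3)) ^ (p + 3) := by positivity
  have h3 : (∏ k, x k) * S ^ 2 ≤ (S / ((p : ℝ) + 3)) ^ (p + 3) * S ^ 2 := by
    refine h.trans (mul_le_mul_of_nonneg_left ?_ h2)
    nlinarith [sq_nonneg (x ⟨0, by omega⟩ - x ⟨1, by omega⟩)]
  exact le_of_mul_le_mul_right h3 (by positivity)

lemma pre_bal (p r a : ℕ) (hr : r ≤ p + 1) : a ^ (p + 3) ≤ bal (p + 3) ((p + 3) * a + r) := by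
  unfold bal
  have h1 : ((p + 3) * a + r) / (p + 3) = a := by
    rw [Nat.mul_add_div (by omega)]
    rw [Nat.div_eq_of_lt (by omega)]
    rfl
  have h2 : ((p + 3) * a + r) % (p + 3) = r := by
    rw [Nat.mul_add_mod]
    exact Nat.mod_eq_of_lt (by omega)
  rw [h1, h2]
  calc a ^ (p + 3) = a ^ (p + 3 - r) * a ^ r := by
        rw [← pow_add]
        congr 1
        omega
    _ ≤ a ^ (p + 3 - r) * (a + 1) ^ r :=
        Nat.mul_le_mul_left _ (Nat.pow_le_pow_left (by omega) r)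

/-- the count of transversals -/
lemma pre_count {V : Type} [DecidableEq V] (hT : TRVStmt) (G : SimpleGraph V) (p r a : ℕ)
    (hr : r ≤ p + 1) (ha : 1 ≤ a) (W : Finset V) (A : Fin (p + 3) → Finset V)
    (hW : W.card ≤ (p + 3) * a + r)
    (hk : a * bal (p + 3) ((p + 3) * a + r) ≤ (a + r) * kc G W (p + 3))
    (hA : Par G A) (hAW : ∀ i, A i ⊆ W) (D : ℕ) (hD : (W \ un A).card ≤ D) :
    (a : ℝ) ^ (p + 3) - (r + D * (2 * (p + 3)) ^ (p + 2)) * a ^ (p + 2) ≤ ((trv G A).card : ℝ) := by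
  have hun : un A ⊆ W := by
    intro v hv
    obtain ⟨i, -, hi⟩ := mem_biUnion.1 hv
    exact hAW i hi
  have ha0 : (0 : ℝ) < a := by exact_mod_cast ha
  -- lower bound for kc
  have h1 : (a : ℝ) ^ (p + 3) - r * a ^ (p + 2) ≤ kc G W (p + 3) := by
    have h2 : a * a ^ (p + 3) ≤ (a + r) * kc G W (p + 3) :=
      (Nat.mul_le_mul_left a (pre_bal p r a hr)).trans hk
    have h3 : (a : ℝ) * a ^ (p + 3) ≤ (a + r) * kc G W (p + 3) := by exact_mod_cast h2
    have h4 : ((a : ℝ) + r) * (a ^ (p + 3) - r * a ^ (p + 2)) ≤ (a + r) * kc G W (p + 3) := by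
      refine le_trans ?_ h3
      have e1 : ((a : ℝ) + r) * (a ^ (p + 3) - r * a ^ (p + 2)) =
          a * a ^ (p + 3) - r ^ 2 * a ^ (p + 2) := by ring
      rw [e1]
      have : (0 : ℝ) ≤ (r : ℝ) ^ 2 * a ^ (p + 2) := by positivity
      linarith
    exact le_of_mul_le_mul_left h4 (by positivity)
  -- upper bound
  have h2 := kc_le_sum (G := G) W (p + 2) (W \ un A) sdiff_subset
  have e2 : W \ (W \ un A) = un A := by
    rw [sdiff_sdiff_right_self, inf_eq_inter, inter_eq_right.2 hun]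
  rw [e2] at h2
  have h3 : ∑ u ∈ W \ un A, kc G (nb G W u) (p + 2) ≤ D * (2 * (p + 3) * a) ^ (p + 2) := by
    calc ∑ u ∈ W \ un A, kc G (nb G W u) (p + 2)
        ≤ ∑ u ∈ W \ un A, (2 * (p + 3) * a) ^ (p + 2) := by
          apply sum_le_sum
          intro u _
          refine (kc_le_choose G _ _).trans ?_
          refine (Nat.choose_le_pow _ _).trans ?_
          apply Nat.pow_le_pow_left
          have h4 : (nb G W u).card ≤ W.card := card_le_card (fun y hy => ((mem_nb G).1 hy).1)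
          nlinarith
      _ = (W \ un A).card * (2 * (p + 3) * a) ^ (p + 2) := by rw [sum_const, smul_eq_mul]
      _ ≤ D * (2 * (p + 3) * a) ^ (p + 2) := Nat.mul_le_mul_right _ hD
  have h4 := (hT G A hA).1
  have h5 : kc G W (p + 3) ≤ D * (2 * (p + 3) * a) ^ (p + 2) + (trv G A).card := by
    rw [← h4]
    exact h2.trans (Nat.add_le_add_right h3 _)
  have h6 : (kc G W (p + 3) : ℝ) ≤ D * (2 * (p + 3) * a) ^ (p + 2) + (trv G A).card := by
    exact_mod_cast h5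
  have e3 : (D : ℝ) * (2 * ((p : ℝ) + 3) * a) ^ (p + 2) =
      D * (2 * ((p : ℝ) + 3)) ^ (p + 2) * a ^ (p + 2) := by
    rw [mul_pow (2 * ((p : ℝ) + 3)) (a : ℝ)]
    ring
  rw [e3] at h6
  linarith

/-- the sizes, as real numbers -/
lemma pre_sizes (hA : AMGStmt) (p : ℕ) (a e' C₁ : ℝ) (ha : 1 ≤ a) (he0 : 0 < e') (he1 : e' ≤ 1 / 2)
    (hC : 0 ≤ C₁) (ha2 : 64 * ((p : ℝ) + 3) ^ 2 * (C₁ + 3 ^ (p + 3)) / e' ^ 2 ≤ a)
    (ha3 : 4 / e' ≤ a) (ha4 : 4 * C₁ / e' < a) (x : Fin (p + 3) → ℝ) (hx : ∀ i, 0 ≤ x i)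
    (hS : ∑ i, x i ≤ ((p : ℝ) + 3) * (a + 1))
    (hX : a ^ (p + 3) - C₁ * a ^ (p + 2) ≤ ∏ i, x i) :
    (∀ i, (1 - e') * a ≤ x i ∧ x i ≤ (1 + e') * a) ∧
      ∏ i, x i ≤ a ^ (p + 3) + 3 ^ (p + 3) * a ^ (p + 2) := by
  have ha0 : 0 < a := by linarith
  have hb0 : (0 : ℝ) < (p : ℝ) + 3 := by positivity
  set S : ℝ := ((p : ℝ) + 3) * (a + 1) with hSd
  have hS0 : 0 < S := by positivity
  have hSd2 : S / ((p : ℝ) + 3) = a + 1 := by rw [hSd]; field_simp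
  have hbin : (a + 1) ^ (p + 3) ≤ a ^ (p + 3) + 3 ^ (p + 3) * a ^ (p + 2) := pre_binom a ha (p + 2)
  have hXup : ∏ i, x i ≤ (a + 1) ^ (p + 3) := by
    have := pre_am hA p x S hx hS hS0
    rwa [hSd2] at this
  set C₃ : ℝ := C₁ + 3 ^ (p + 3) with hC₃
  have hC₃0 : 0 < C₃ := by positivity
  have hgap : (a + 1) ^ (p + 3) - ∏ i, x i ≤ C₃ * a ^ (p + 2) := by
    rw [hC₃, add_mul]
    linarith
  -- differences
  have hdiff : ∀ i j, |x i - x j| ≤ e' * a / 4 := by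
    intro i j
    by_cases hij : i = j
    · rw [hij, sub_self, abs_zero]
      positivity
    have h1 := hA (p + 3) x S hx hS i j hij
    push_cast at h1
    rw [hSd2] at h1
    have h2 : (x i - x j) ^ 2 * a ^ (p + 3) ≤ (4 * ((p : ℝ) + 3) ^ 2 * C₃ * a) * a ^ (p + 3) := by
      have h3 : (x i - x j) ^ 2 * a ^ (p + 3) ≤ (x i - x j) ^ 2 * (a + 1) ^ (p + 3) :=
        mul_le_mul_of_nonneg_left (pow_le_pow_left₀ ha0.le (by linarith) _) (sq_nonneg _)
      have h4 : (x i - x j) ^ 2 * (a + 1) ^ (p + 3) ≤ S ^ 2 * ((a + 1) ^ (p + 3) - ∏ k, x k) := by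
        linarith
      have h5 : S ^ 2 * ((a + 1) ^ (p + 3) - ∏ k, x k) ≤ S ^ 2 * (C₃ * a ^ (p + 2)) :=
        mul_le_mul_of_nonneg_left hgap (by positivity)
      have h6 : S ^ 2 ≤ 4 * ((p : ℝ) + 3) ^ 2 * a ^ 2 := by
        rw [hSd, mul_pow]
        have : (a + 1) ^ 2 ≤ 4 * a ^ 2 := by nlinarith
        nlinarith [sq_nonneg ((p : ℝ) + 3)]
      have h7 : S ^ 2 * (C₃ * a ^ (p + 2)) ≤ (4 * ((p : ℝ) + 3) ^ 2 * a ^ 2) * (C₃ * a ^ (p + 2)) :=
        mul_le_mul_of_nonneg_right h6 (by positivity)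
      have e1 : (4 * ((p : ℝ) + 3) ^ 2 * a ^ 2) * (C₃ * a ^ (p + 2)) =
          (4 * ((p : ℝ) + 3) ^ 2 * C₃ * a) * a ^ (p + 3) := by ring
      rw [e1] at h7
      linarith
    have h3 : (x i - x j) ^ 2 ≤ 4 * ((p : ℝ) + 3) ^ 2 * C₃ * a :=
      le_of_mul_le_mul_right h2 (by positivity)
    have h4 : 64 * ((p : ℝ) + 3) ^ 2 * C₃ ≤ a * e' ^ 2 := by
      rw [div_le_iff₀ (by positivity)] at ha2
      exact ha2
    have h5 : (x i - x j) ^ 2 ≤ (e' * a / 4) ^ 2 := by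
      refine h3.trans ?_
      have : 64 * ((p : ℝ) + 3) ^ 2 * C₃ * a ≤ a * e' ^ 2 * a := mul_le_mul_of_nonneg_right h4 ha0.le
      nlinarith
    exact abs_le_of_sq_le_sq h5 (by positivity)
  have ha3' : 1 ≤ e' * a / 4 := by
    rw [div_le_iff₀ he0] at ha3
    linarith
  have ha4' : C₁ < e' * a / 4 := by
    rw [div_lt_iff₀ he0] at ha4
    linarith
  have hsumd : ∀ i, ((p : ℝ) + 3) * x i = ∑ j, x j + ∑ j, (x i - x j) := by
    intro i
    rw [Finset.sum_sub_distrib]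
    simp
  have hdsum : ∀ i, |∑ j, (x i - x j)| ≤ ((p : ℝ) + 3) * (e' * a / 4) := by
    intro i
    refine (Finset.abs_sum_le_sum_abs _ _).trans ?_
    refine (Finset.sum_le_sum (fun j _ => hdiff i j)).trans ?_
    simp
  -- lower bound of the sum
  have hlow : ((p : ℝ) + 3) * ((1 - e' / 4) * a) ≤ ∑ j, x j := by
    by_contra hcon
    rw [not_le] at hcon
    have h1 : 0 < 1 - e' / 4 := by linarith
    have h2 := pre_am hA p x (((p : ℝ) + 3) * ((1 - e' / 4) * a)) hx hcon.le (by positivity)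
    rw [mul_div_cancel_left₀ _ hb0.ne', mul_pow] at h2
    have h3 : (1 - e' / 4) ^ (p + 3) ≤ 1 - e' / 4 :=
      pow_le_of_le_one h1.le (by linarith) (by omega)
    have h4 : (1 - e' / 4) ^ (p + 3) * a ^ (p + 3) ≤ (1 - e' / 4) * a ^ (p + 3) :=
      mul_le_mul_of_nonneg_right h3 (by positivity)
    have h5 : e' / 4 * a ^ (p + 3) ≤ C₁ * a ^ (p + 2) := by linarith
    have h6 : (e' * a / 4) * a ^ (p + 2) ≤ C₁ * a ^ (p + 2) := by
      have : (e' * a / 4) * a ^ (p + 2) = e' / 4 * a ^ (p + 3) := by ring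
      rw [this]
      exact h5
    have h7 := le_of_mul_le_mul_right h6 (by positivity)
    linarith
  refine ⟨fun i => ⟨?_, ?_⟩, hXup.trans hbin⟩
  · have h1 := hsumd i
    have h2 := (abs_le.1 (hdsum i)).1
    have h3 : ((p : ℝ) + 3) * ((1 - e') * a) ≤ ((p : ℝ) + 3) * x i := by
      have : ((p : ℝ) + 3) * ((1 - e' / 4) * a) - ((p : ℝ) + 3) * (e' * a / 4) ≥
          ((p : ℝ) + 3) * ((1 - e') * a) := by
        have : 0 ≤ ((p : ℝ) + 3) * (e' * a) := by positivity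
        nlinarith
      linarith
    exact le_of_mul_le_mul_left h3 hb0
  · have h1 := hsumd i
    have h2 := (abs_le.1 (hdsum i)).2
    have h3 : ((p : ℝ) + 3) * x i ≤ ((p : ℝ) + 3) * ((1 + e') * a) := by
      have h4 : ((p : ℝ) + 3) * 1 ≤ ((p : ℝ) + 3) * (e' * a / 4) :=
        mul_le_mul_of_nonneg_left ha3' hb0.le
      have h5 : 0 ≤ ((p : ℝ) + 3) * (e' * a) := by positivity
      rw [hSd] at hS
      nlinarith
    exact le_of_mul_le_mul_left h3 hb0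

theorem pre (hK : KZRStmt) (hP : PRTStmt) (hA : AMGStmt) (hT : TRVStmt) (hB : BRKStmt) : PREStmt := by
  intro p r hr
  obtain ⟨k₀, hk₀⟩ := hK p r hr
  set D : ℕ := 4 * (p + 3) ^ 2 with hD
  set C₁ : ℝ := r + D * (2 * ((p : ℝ) + 3)) ^ (p + 2) with hC₁
  have hC₁0 : 0 ≤ C₁ := by positivity
  set C₄ : ℝ := ((p : ℝ) + 3) ^ 2 * (C₁ + 3 ^ (p + 3)) * 2 ^ (p + 1) with hC₄
  have hC₄0 : 0 < C₄ := by positivity
  refine ⟨D + C₄, by positivity, ?_⟩
  intro e he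
  set e' : ℝ := min e (1 / 2) with he'
  have he0 : 0 < e' := lt_min he (by norm_num)
  have he1 : e' ≤ 1 / 2 := min_le_right _ _
  have hee : e' ≤ e := min_le_left _ _
  set M : ℝ := 64 * ((p : ℝ) + 3) ^ 2 * (C₁ + 3 ^ (p + 3)) / e' ^ 2 + 4 / e' + 4 * C₁ / e' + 1 with hM
  have hM1 : 0 ≤ 64 * ((p : ℝ) + 3) ^ 2 * (C₁ + 3 ^ (p + 3)) / e' ^ 2 := by positivity
  have hM2 : 0 ≤ 4 / e' := by positivity
  have hM3 : 0 ≤ 4 * C₁ / e' := by positivity
  refine ⟨max k₀ ⌈M⌉₊, ?_⟩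
  intro a ha V _ G W hCB hW hk
  have ha1 : k₀ ≤ a := (le_max_left _ _).trans ha
  have haM : M ≤ a := (Nat.le_ceil M).trans (by exact_mod_cast (le_max_right _ _).trans ha)
  have haR : (1 : ℝ) ≤ a := by linarith
  have haN : 1 ≤ a := by exact_mod_cast haR
  have ha0 : (0 : ℝ) < a := by linarith
  obtain ⟨L, hL, hLs⟩ := hk₀ a ha1 G W hCB hW hk
  obtain ⟨A, hPar, hAW, hsum⟩ := hP G p W hCB L hL
  have hun : un A ⊆ W := by
    intro v hv
    obtain ⟨i, -, hi⟩ := mem_biUnion.1 hv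
    exact hAW i hi
  have hcun : (un A).card = ∑ i, (A i).card := by
    unfold un
    apply card_biUnion
    intro i _ j _ hij
    exact hPar.dis i j hij
  have hsd : (W \ un A).card ≤ D := by
    rw [card_sdiff_of_subset hun, hcun, hsum]
    omega
  have hcount := pre_count hT G p r a hr haN W A hW hk hPar hAW D hsd
  rw [← hC₁] at hcount
  -- trv ≤ product
  have htp : ((trv G A).card : ℝ) ≤ ∏ i, ((A i).card : ℝ) := by
    have : (trv G A).card ≤ ∏ i, (A i).card := by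
      classical
      unfold trv
      refine (card_filter_le _ _).trans ?_
      rw [Fintype.card_piFinset]
    exact_mod_cast this
  have hsumle : ∑ i, ((A i).card : ℝ) ≤ ((p : ℝ) + 3) * (a + 1) := by
    have h1 : ∑ i, (A i).card ≤ (p + 3) * a + r := by
      rw [← hcun]
      exact (card_le_card hun).trans hW
    have h2 : ∑ i, ((A i).card : ℝ) ≤ ((p : ℝ) + 3) * a + r := by exact_mod_cast h1
    have h3 : (r : ℝ) ≤ p + 1 := by exact_mod_cast hr
    linarith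
  obtain ⟨hsz, hpr⟩ := pre_sizes hA p a e' C₁ haR he0 he1 hC₁0 (by linarith) (by linarith)
    (by linarith) (fun i => ((A i).card : ℝ)) (fun i => Nat.cast_nonneg _) hsumle
    (hcount.trans htp)
  refine ⟨A, hPar, hAW, fun i => ⟨?_, ?_⟩, ?_, ?_⟩
  · refine le_trans ?_ (hsz i).1
    exact mul_le_mul_of_nonneg_right (by linarith) ha0.le
  · refine (hsz i).2.trans ?_
    exact mul_le_mul_of_nonneg_right (by linarith) ha0.le
  · have : ((W \ un A).card : ℝ) ≤ D := by exact_mod_cast hsd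
    linarith
  · -- tot
    set d : ℕ := ⌈(a : ℝ) / 2⌉₊ with hd
    have hda : (a : ℝ) / 2 ≤ d := Nat.le_ceil _
    have hdA : ∀ i, d ≤ (A i).card := by
      intro i
      rw [hd, Nat.ceil_le]
      refine le_trans ?_ (hsz i).1
      nlinarith
    have h1 := (hB G p A).2.1 d hdA
    have h2 : (tot G A : ℝ) * d ^ (p + 1) + ((p : ℝ) + 3) ^ 2 * (trv G A).card ≤
        ((p : ℝ) + 3) ^ 2 * ∏ i, ((A i).card : ℝ) := by exact_mod_cast h1
    have h3 : (tot G A : ℝ) * (a / 2) ^ (p + 1) ≤ tot G A * d ^ (p + 1) :=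
      mul_le_mul_of_nonneg_left (pow_le_pow_left₀ (by positivity) hda _) (Nat.cast_nonneg _)
    have h4 : ∏ i, ((A i).card : ℝ) - (trv G A).card ≤ (C₁ + 3 ^ (p + 3)) * a ^ (p + 2) := by
      have := hpr
      nlinarith
    have h5 : (tot G A : ℝ) * (a / 2) ^ (p + 1) ≤
        ((p : ℝ) + 3) ^ 2 * ((C₁ + 3 ^ (p + 3)) * a ^ (p + 2)) := by
      have h6 : ((p : ℝ) + 3) ^ 2 * (∏ i, ((A i).card : ℝ) - (trv G A).card) ≤
          ((p : ℝ) + 3) ^ 2 * ((C₁ + 3 ^ (p + 3)) * a ^ (p + 2)) :=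
        mul_le_mul_of_nonneg_left h4 (by positivity)
      have h7 : ((p : ℝ) + 3) ^ 2 * (∏ i, ((A i).card : ℝ) - (trv G A).card) =
          ((p : ℝ) + 3) ^ 2 * ∏ i, ((A i).card : ℝ) - ((p : ℝ) + 3) ^ 2 * (trv G A).card := by ring
      rw [h7] at h6
      linarith
    have h6 : (tot G A : ℝ) * (a / 2) ^ (p + 1) ≤ (C₄ * a) * (a / 2) ^ (p + 1) := by
      refine h5.trans (le_of_eq ?_)
      rw [hC₄, div_pow]
      field_simp
      ring
    have h7 := le_of_mul_le_mul_right h6 (by positivity)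
    have h8 : (0 : ℝ) ≤ D * a := by positivity
    linarith

end Pool.KQ
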